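import Pool.Agent.Lib_helper33.IHP.Main
import Pool.Agent.Lib_helper33.IHP.Neg

/-!
Bounded depth guessing is equivalent to the Interval Hitting Principle, already for the
explicit sequence of types `0^k 1 0 1^k`, whose depth is at most `1`.
-/

namespace Pool.Agent.Results.MP_891d8f_lc.BoundedDepthIffIHP

open Ordinal Order Pool.Agent.Lib_helper33.IHP

theorem guessing_of_strong {t : ℕ → DType} {C : Ordinal.{0} → ℕ → Ordinal.{0}}
    (h : StronglyGuessing t C) : Guessing t C := by
  intro f
  obtain ⟨β, hβ, hβ1, h1⟩ := h f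
  obtain ⟨α, _, h3, h4, h5, h6⟩ := h1 0 hβ.bot_lt
  exact ⟨α, β, f β, h4, hβ, h3, hβ1, h5, rfl, h6⟩

/-- The sequence `star` of the types `0^k 1 0 1^k` (`k < ω`) has bounded depth, and the following
are equivalent: the Interval Hitting Principle; some single `C`-sequence is strongly `t`-guessing
for all `t` of bounded depth; for each `t` of bounded depth some `C`-sequence is `t`-guessing; some
`C`-sequence is `star`-guessing. -/
theorem result : BoundedDepth star ∧ List.TFAE [
    IntervalHitting,
    ∃ C, IsCSeq C ∧ ∀ t, BoundedDepth t → StronglyGuessing t C,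
    ∀ t, BoundedDepth t → ∃ C, IsCSeq C ∧ Guessing t C,
    ∃ C, IsCSeq C ∧ Guessing star C] := by
  refine ⟨star_boundedDepth, ?_⟩
  tfae_have 1 → 2 := strong_of_ihp
  tfae_have 2 → 3 := by
    rintro ⟨C, hC, h⟩ t ht
    exact ⟨C, hC, guessing_of_strong (h t ht)⟩
  tfae_have 3 → 4 := fun h => h star star_boundedDepth
  tfae_have 4 → 1 := by
    rintro ⟨C, hC, h⟩
    exact ihp_of_guessing C hC h
  tfae_finish

end Pool.Agent.Results.MP_891d8f_lc.BoundedDepthIffIHP
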