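import Pool.Agent.Lib_helper33.NI.Main
import Pool.Agent.Lib_helper33.NI.Star
import Pool.Agent.Lib_helper33.IHP.Depth

/-!
# A model of ZFC in which a sequence of disjoint types of bounded depth has no guessing C-sequence
-/

namespace Pool.Agent.Results.MP_891d8f_lc.NoGuessingModel

open Pool.Agent.Lib_helper27 Pool.Agent.Lib_helper27.Fml Pool.Agent.Lib_helper33

/-- The types `star k = 0^k 1 0 1^k` have bounded depth; `star k` is the type of the sets of the
first `k + 1` elements of two increasing sequences `a`, `b` iff `a(i) < b(0) < a(k)` for `i < k` and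
`a(k) < b(i)` for `0 < i ≤ k`; and there is a model `(M, E)` of ZFC which satisfies: no C-sequence is
guessing for the sequence of the types `0^k 1 0 1^k`. -/
theorem result : IHP.BoundedDepth IHP.star ∧
    (∀ (k : ℕ) (a b : ℕ → Ordinal.{0}), StrictMono a → StrictMono b →
      (IHP.HasType (IHP.star k) (a '' {i | i < k + 1}) (b '' {i | i < k + 1}) ↔
        (∀ i, i < k → a i < b 0) ∧ b 0 < a k ∧ ∀ i, i < k ∨ i = k → 0 < i → a k < b i)) ∧
    ∃ (M : Type 1) (E : M → M → Prop), IsModelOfZFC E ∧ Holds E noStarGuessing :=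
  ⟨IHP.star_boundedDepth, IHP.star_iff, NI.main⟩

end Pool.Agent.Results.MP_891d8f_lc.NoGuessingModel
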